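import Pool.Agent.Helper53.SL.St2

set_option autoImplicit false

open Polynomial Filter Topology MeasureTheory Set

noncomputable section

namespace Pool.Agent.Helper63.SLM

open Pool.Agent.Helper53.SL
open Pool.Agent.Helper96.Salem (PK PA PK_continuous PK_pos PK_le PA_eq PK_integrable_log reverse_X_sub_C')

/-! ### Power series in the unit disc -/

/-- the power series of a function given by a convergent sum in the unit disc -/
private theorem fps {E : ℂ → ℂ} {b : ℕ → ℂ}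
    (h : ∀ z : ℂ, ‖z‖ < 1 → HasSum (fun n : ℕ => b n * z ^ n) (E z)) :
    HasFPowerSeriesOnBall E (FormalMultilinearSeries.ofScalars ℂ b) 0 1 := by
  refine ⟨?_, one_pos, ?_⟩
  · refine ENNReal.le_of_forall_nnreal_lt fun r hr => ?_
    apply FormalMultilinearSeries.le_radius_of_summable
    have hr1 : (r : ℝ) < 1 := by exact_mod_cast hr
    have h0 : ‖((r : ℝ) : ℂ)‖ < 1 := by
      rw [Complex.norm_real, Real.norm_eq_abs, abs_of_nonneg (NNReal.coe_nonneg r)]; exact hr1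
    have h1 := (h _ h0).summable.norm
    refine h1.congr fun n => ?_
    rw [FormalMultilinearSeries.ofScalars_norm, norm_mul, norm_pow, Complex.norm_real,
      Real.norm_eq_abs, abs_of_nonneg (NNReal.coe_nonneg r)]
  · intro y hy
    have hy1 : ‖y‖ < 1 := by
      have h1 : ‖y‖ₑ < 1 := by simpa using hy
      exact_mod_cast (by simpa [enorm, ← NNReal.coe_lt_coe] using h1)
    have h1 := h y hy1
    rw [zero_add]
    refine h1.congr_fun fun n => ?_
    rw [FormalMultilinearSeries.ofScalars_apply_eq, smul_eq_mul]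

private theorem uniq {E : ℂ → ℂ} {b c : ℕ → ℂ}
    (h : ∀ z : ℂ, ‖z‖ < 1 → HasSum (fun n : ℕ => b n * z ^ n) (E z))
    (h' : ∀ z : ℂ, ‖z‖ < 1 → HasSum (fun n : ℕ => c n * z ^ n) (E z)) : b = c := by
  have h1 := (fps h).hasFPowerSeriesAt.eq_formalMultilinearSeries (fps h').hasFPowerSeriesAt
  exact FormalMultilinearSeries.ofScalars_series_injective ℂ ℂ h1

private theorem diffOn {E : ℂ → ℂ} {b : ℕ → ℂ}
    (h : ∀ z : ℂ, ‖z‖ < 1 → HasSum (fun n : ℕ => b n * z ^ n) (E z)) :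
    DifferentiableOn ℂ E (Metric.ball 0 1) := by
  have h1 := (fps h).differentiableOn
  have h2 : Metric.eball (0 : ℂ) 1 = Metric.ball 0 1 := by
    have h3 := Metric.eball_ofReal (x := (0 : ℂ)) (ε := 1)
    rwa [ENNReal.ofReal_one] at h3
  rwa [h2] at h1

/-- Cauchy estimate -/
private theorem cauchy {E : ℂ → ℂ} {b : ℕ → ℂ}
    (h : ∀ z : ℂ, ‖z‖ < 1 → HasSum (fun n : ℕ => b n * z ^ n) (E z)) {r M : ℝ} (hr : 0 < r) (hr1 : r < 1)
    (hM : ∀ z : ℂ, ‖z‖ = r → ‖E z‖ ≤ M) (n : ℕ) : ‖b n‖ * r ^ n ≤ M := by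
  lift r to NNReal using hr.le
  have hd : DifferentiableOn ℂ E (Metric.closedBall 0 (r : ℝ)) :=
    (diffOn h).mono (Metric.closedBall_subset_ball hr1)
  have h1 := hd.hasFPowerSeriesOnBall (by exact_mod_cast hr)
  have h2 := (fps h).hasFPowerSeriesAt.eq_formalMultilinearSeries h1.hasFPowerSeriesAt
  have h3 := norm_cauchyPowerSeries_le E 0 (r : ℝ) n
  rw [← h2, FormalMultilinearSeries.ofScalars_norm, abs_of_pos hr] at h3
  have h4 : (2 * Real.pi)⁻¹ * ∫ θ : ℝ in (0 : ℝ)..2 * Real.pi, ‖E (circleMap 0 r θ)‖ ≤ M := by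
    have h5 : ∫ θ : ℝ in (0 : ℝ)..2 * Real.pi, ‖E (circleMap 0 r θ)‖ ≤ ∫ θ : ℝ in (0 : ℝ)..2 * Real.pi, M := by
      refine intervalIntegral.integral_mono_on (by positivity) ?_ (by simp) fun θ _ => hM _ ?_
      · have hc : ContinuousOn E (Metric.closedBall 0 (r : ℝ)) := hd.continuousOn
        have hc2 : Continuous fun θ : ℝ => E (circleMap 0 r θ) :=
          hc.comp_continuous (continuous_circleMap _ _) fun θ => circleMap_mem_closedBall 0 hr.le θ
        exact hc2.norm.intervalIntegrable _ _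
      · rw [norm_circleMap_zero, abs_of_pos hr]
    rw [intervalIntegral.integral_const, sub_zero, smul_eq_mul] at h5
    calc _ ≤ (2 * Real.pi)⁻¹ * (2 * Real.pi * M) := mul_le_mul_of_nonneg_left h5 (by positivity)
      _ = M := by field_simp
  calc ‖b n‖ * (r : ℝ) ^ n ≤ (((2 * Real.pi)⁻¹ * ∫ θ : ℝ in (0 : ℝ)..2 * Real.pi, ‖E (circleMap 0 r θ)‖) *
        (r : ℝ)⁻¹ ^ n) * (r : ℝ) ^ n := mul_le_mul_of_nonneg_right h3 (by positivity)
    _ = (2 * Real.pi)⁻¹ * ∫ θ : ℝ in (0 : ℝ)..2 * Real.pi, ‖E (circleMap 0 r θ)‖ := by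
      rw [mul_assoc, ← mul_pow, inv_mul_cancel₀ hr.ne', one_pow, mul_one]
    _ ≤ M := h4

/-- product of power series -/
private theorem conv {E G : ℂ → ℂ} {b c : ℕ → ℂ}
    (h : ∀ z : ℂ, ‖z‖ < 1 → HasSum (fun n : ℕ => b n * z ^ n) (E z))
    (h' : ∀ z : ℂ, ‖z‖ < 1 → HasSum (fun n : ℕ => c n * z ^ n) (G z)) :
    ∀ z : ℂ, ‖z‖ < 1 → HasSum (fun n : ℕ => (∑ i ∈ Finset.range (n + 1), b i * c (n - i)) * z ^ n)
      (E z * G z) := by
  intro z hz
  have h1 := hasSum_sum_range_mul_of_summable_norm (h z hz).summable.norm (h' z hz).summable.norm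
  rw [(h z hz).tsum_eq, (h' z hz).tsum_eq] at h1
  refine h1.congr_fun fun n => ?_
  rw [Finset.sum_mul]
  refine Finset.sum_congr rfl fun i hi => ?_
  have h2 : i + (n - i) = n := Nat.add_sub_cancel' (Nat.lt_succ_iff.1 (Finset.mem_range.1 hi))
  calc _ = b i * c (n - i) * (z ^ i * z ^ (n - i)) := by rw [← pow_add, h2]
    _ = _ := by ring

private theorem at_zero {E : ℂ → ℂ} {b : ℕ → ℂ}
    (h : ∀ z : ℂ, ‖z‖ < 1 → HasSum (fun n : ℕ => b n * z ^ n) (E z)) : E 0 = b 0 := by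
  have h1 := h 0 (by simp)
  have h2 : HasSum (fun n : ℕ => b n * (0 : ℂ) ^ n) (b 0 * (0 : ℂ) ^ 0) := by
    refine hasSum_single 0 fun n hn => ?_
    rw [zero_pow hn, mul_zero]
  have h3 := h1.unique h2
  rwa [pow_zero, mul_one] at h3

/-- the coefficients of `1 - τ z` -/
private def pt (τ : ℝ) (n : ℕ) : ℂ := if n = 0 then 1 else if n = 1 then -(τ : ℂ) else 0

private theorem pt_sum (τ : ℝ) (z : ℂ) : HasSum (fun n : ℕ => pt τ n * z ^ n) (1 - τ * z) := by
  have h : HasSum (fun n : ℕ => pt τ n * z ^ n) (∑ n ∈ Finset.range 2, pt τ n * z ^ n) := by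
    refine hasSum_sum_of_ne_finset_zero fun n hn => ?_
    have h1 : 2 ≤ n := by
      by_contra h
      exact hn (Finset.mem_range.2 (by omega))
    rw [pt, if_neg (by omega), if_neg (by omega), zero_mul]
  have h2 : (∑ n ∈ Finset.range 2, pt τ n * z ^ n) = 1 - τ * z := by
    rw [Finset.sum_range_succ, Finset.sum_range_one]
    simp [pt]
    ring
  rwa [h2] at h

/-! ### The Poisson integral of `log |R1| - log |Q1|` -/

/-- `log |R1| - log |Q1|` on the circle -/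
private def uu (R1 Q1 : ℂ[X]) (t : ℝ) : ℝ :=
  Real.log ‖R1.eval (circleMap 0 1 t)‖ - Real.log ‖Q1.eval (circleMap 0 1 t)‖

private theorem uu_int (R1 Q1 : ℂ[X]) : IntervalIntegrable (uu R1 Q1) volume 0 (2 * Real.pi) :=
  R1.intervalIntegrable_mahlerMeasure.sub Q1.intervalIntegrable_mahlerMeasure

private theorem PK_int {w : ℂ} (hw : ‖w‖ < 1) {φ : ℝ → ℝ} (h : IntervalIntegrable φ volume 0 (2 * Real.pi)) :
    IntervalIntegrable (fun t => PK w (circleMap 0 1 t) * φ t) volume 0 (2 * Real.pi) :=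
  h.continuousOn_mul (PK_continuous hw).continuousOn

private theorem log_R {R1 Q1 : ℂ[X]} (hR0 : R1 ≠ 0) (hQ0 : Q1 ≠ 0)
    (hR : ∀ a, R1.eval a = 0 → 1 ≤ ‖a‖) (hQ : ∀ a, Q1.eval a = 0 → 1 ≤ ‖a‖) {z : ℂ} (hz : ‖z‖ < 1) :
    Real.log ‖R1.eval z‖ - Real.log ‖Q1.eval z‖ =
      (2 * Real.pi)⁻¹ * ∫ t in (0 : ℝ)..2 * Real.pi, PK z (circleMap 0 1 t) * uu R1 Q1 t := by
  rw [← PA_eq hz hR0 hR, ← PA_eq hz hQ0 hQ]
  unfold PA
  rw [Real.circleAverage_def, Real.circleAverage_def, smul_eq_mul, smul_eq_mul, ← mul_sub,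
    ← intervalIntegral.integral_sub (PK_integrable_log hz R1) (PK_integrable_log hz Q1)]
  congr 1
  refine intervalIntegral.integral_congr fun t _ => ?_
  simp only [uu]
  ring

private theorem pmi {φ : ℝ → ℝ} (h : IntervalIntegrable φ volume 0 (2 * Real.pi)) :
    IntervalIntegrable (fun t => max (φ t) 0) volume 0 (2 * Real.pi) := by
  have h1 : (fun t => max (φ t) 0) = fun t => (1 / 2 : ℝ) * (φ t + |φ t|) := by
    funext t
    rcases le_total (φ t) 0 with h2 | h2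
    · rw [max_eq_right h2, abs_of_nonpos h2]; ring
    · rw [max_eq_left h2, abs_of_nonneg h2]; ring
  rw [h1]
  exact (h.add h.abs).const_mul _

private theorem log_bd {R1 Q1 : ℂ[X]} {z : ℂ} (hz : ‖z‖ < 1) :
    |(2 * Real.pi)⁻¹ * ∫ t in (0 : ℝ)..2 * Real.pi, PK z (circleMap 0 1 t) * uu R1 Q1 t| ≤
      ((2 * Real.pi)⁻¹ * ∫ t in (0 : ℝ)..2 * Real.pi, |uu R1 Q1 t|) * ((1 + ‖z‖) / (1 - ‖z‖)) := by
  have hu := uu_int R1 Q1
  rw [abs_mul, abs_of_nonneg (by positivity : (0 : ℝ) ≤ (2 * Real.pi)⁻¹), mul_assoc]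
  refine mul_le_mul_of_nonneg_left ?_ (by positivity)
  refine (intervalIntegral.abs_integral_le_integral_abs (by positivity)).trans ?_
  rw [← intervalIntegral.integral_mul_const]
  refine intervalIntegral.integral_mono_on (by positivity) (PK_int hz hu).abs (hu.abs.mul_const _) fun t _ => ?_
  rw [abs_mul, abs_of_pos (PK_pos hz t), mul_comm]
  exact mul_le_mul_of_nonneg_left (PK_le hz t) (abs_nonneg _)

/-! ### The core -/

private theorem core (h2 : StToe) (h3 : StHer) {τ B' : ℝ} (hτ : 1 < τ) {R1 Q1 : ℂ[X]} {ε : ℂ}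
    (hε : ‖ε‖ = 1) {f : ℕ → ℤ} (hf0 : f 0 = 1) (hR0 : R1 ≠ 0) (hQ0 : Q1 ≠ 0)
    (hR : ∀ a, R1.eval a = 0 → 1 ≤ ‖a‖) (hQ : ∀ a, Q1.eval a = 0 → 1 ≤ ‖a‖)
    (hF : ∀ z : ℂ, ‖z‖ < 1 → HasSum (fun n : ℕ => (f n : ℂ) * z ^ n)
      (ε * ((1 - τ * z) * R1.eval z) / Q1.eval z))
    (hm : (2 * Real.pi)⁻¹ * ∫ t in (0 : ℝ)..2 * Real.pi, |uu R1 Q1 t| ≤ B') : Lev B' τ := by
  have hu := uu_int R1 Q1
  have hup := pmi hu
  have hum : IntervalIntegrable (fun t => max (-uu R1 Q1 t) 0) volume 0 (2 * Real.pi) := pmi hu.neg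
  obtain ⟨Ep, bp, hEp, hEp', hbp⟩ := h3 (fun t => max (uu R1 Q1 t) 0) (fun t => le_max_right _ _) hup
  obtain ⟨Em, bm, hEm, hEm', hbm⟩ := h3 (fun t => max (-uu R1 Q1 t) 0) (fun t => le_max_right _ _) hum
  have hR1 : ∀ z : ℂ, ‖z‖ < 1 → R1.eval z ≠ 0 := fun z hz h => absurd (hR z h) (not_le.2 hz)
  have hQ1 : ∀ z : ℂ, ‖z‖ < 1 → Q1.eval z ≠ 0 := fun z hz h => absurd (hQ z h) (not_le.2 hz)
  have hε0 : ε ≠ 0 := by rw [← norm_ne_zero_iff, hε]; exact one_ne_zero
  -- the function `R`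
  obtain ⟨R, hRdef⟩ : ∃ R : ℂ → ℂ, ∀ z, R z = ε * R1.eval z / Q1.eval z := ⟨_, fun _ => rfl⟩
  have hRne : ∀ z : ℂ, ‖z‖ < 1 → R z ≠ 0 := fun z hz => by
    rw [hRdef]; exact div_ne_zero (mul_ne_zero hε0 (hR1 z hz)) (hQ1 z hz)
  have hRlog : ∀ z : ℂ, ‖z‖ < 1 → Real.log ‖R z‖ =
      (2 * Real.pi)⁻¹ * ∫ t in (0 : ℝ)..2 * Real.pi, PK z (circleMap 0 1 t) * uu R1 Q1 t := by
    intro z hz
    rw [← log_R hR0 hQ0 hR hQ hz, hRdef, norm_div, norm_mul, hε, one_mul, Real.log_div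
      (norm_ne_zero_iff.2 (hR1 z hz)) (norm_ne_zero_iff.2 (hQ1 z hz))]
  have hRlog2 : ∀ z : ℂ, ‖z‖ < 1 → Real.log ‖R z‖ = Real.log ‖Em z‖ - Real.log ‖Ep z‖ := by
    intro z hz
    rw [hRlog z hz, (hEm' z hz).2.2, (hEp' z hz).2.2]
    have e1 : ∫ t in (0 : ℝ)..2 * Real.pi, PK z (circleMap 0 1 t) * uu R1 Q1 t =
        (∫ t in (0 : ℝ)..2 * Real.pi, PK z (circleMap 0 1 t) * max (uu R1 Q1 t) 0) -
        ∫ t in (0 : ℝ)..2 * Real.pi, PK z (circleMap 0 1 t) * max (-uu R1 Q1 t) 0 := by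
      rw [← intervalIntegral.integral_sub (PK_int hz hup) (PK_int hz hum)]
      refine intervalIntegral.integral_congr fun t _ => ?_
      rw [← mul_sub]
      congr 1
      rcases le_total (uu R1 Q1 t) 0 with h5 | h5
      · rw [max_eq_right h5, max_eq_left (by linarith)]; ring
      · rw [max_eq_left h5, max_eq_right (by linarith)]; ring
    rw [e1]
    ring
  have hnorm : ∀ z : ℂ, ‖z‖ < 1 → ‖R z * Ep z / Em z‖ = 1 := by
    intro z hz
    have a1 : 0 < ‖R z‖ := norm_pos_iff.2 (hRne z hz)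
    have a2 : 0 < ‖Ep z‖ := norm_pos_iff.2 (hEp' z hz).1
    have a3 : 0 < ‖Em z‖ := norm_pos_iff.2 (hEm' z hz).1
    have a4 : Real.log (‖R z‖ * ‖Ep z‖) = Real.log ‖Em z‖ := by
      rw [Real.log_mul a1.ne' a2.ne', hRlog2 z hz]; ring
    have a5 : ‖R z‖ * ‖Ep z‖ = ‖Em z‖ := Real.log_injOn_pos (mul_pos a1 a2) a3 a4
    rw [norm_div, norm_mul, a5, div_self a3.ne']
  have hR00 : R 0 = 1 := by
    have a1 := at_zero hF
    rw [hf0] at a1
    rw [hRdef]
    simpa using a1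
  have hconst : ∀ z : ℂ, ‖z‖ < 1 → R z * Ep z / Em z = 1 := by
    have hd : DifferentiableOn ℂ (fun z => R z * Ep z / Em z) (Metric.ball 0 1) := by
      refine DifferentiableOn.div (DifferentiableOn.mul ?_ (diffOn hEp)) (diffOn hEm) ?_
      · have a1 : R = fun z => ε * R1.eval z / Q1.eval z := funext hRdef
        rw [a1]
        refine DifferentiableOn.div ?_ Q1.differentiable.differentiableOn fun z hz => hQ1 z (by simpa using hz)
        exact (R1.differentiable.const_mul ε).differentiableOn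
      · intro z hz
        exact (hEm' z (by simpa using hz)).1
    have hmax : IsMaxOn (norm ∘ fun z => R z * Ep z / Em z) (Metric.ball 0 1) 0 := by
      intro z hz
      have a1 : ‖z‖ < 1 := by simpa using hz
      show ‖R z * Ep z / Em z‖ ≤ ‖R 0 * Ep 0 / Em 0‖
      rw [hnorm z a1, hnorm 0 (by simp)]
    have a2 := Complex.eqOn_of_isPreconnected_of_isMaxOn_norm (convex_ball (0 : ℂ) 1).isPreconnected
      Metric.isOpen_ball hd (Metric.mem_ball_self one_pos) hmax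
    intro z hz
    have a3 : R z * Ep z / Em z = R 0 * Ep 0 / Em 0 := a2 (by simpa using hz)
    rw [a3]
    have a4 := hnorm 0 (by simp)
    rw [hR00, at_zero hEp, at_zero hEm, hbp, hbm, one_mul, ← Complex.ofReal_div] at a4 ⊢
    rw [Complex.norm_real, Real.norm_eq_abs, abs_of_pos (by positivity)] at a4
    rw [a4, Complex.ofReal_one]
  have hRE : ∀ z : ℂ, ‖z‖ < 1 → R z * Ep z = Em z := fun z hz => by
    have a1 := hconst z hz
    rwa [div_eq_one_iff_eq (hEm' z hz).1] at a1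
  have hFR : ∀ z : ℂ, ε * ((1 - τ * z) * R1.eval z) / Q1.eval z = (1 - τ * z) * R z := fun z => by
    rw [hRdef]; ring
  have hF' : ∀ z : ℂ, ‖z‖ < 1 → HasSum (fun n : ℕ => (f n : ℂ) * z ^ n) ((1 - τ * z) * R z) :=
    fun z hz => by have := hF z hz; rwa [hFR] at this
  have hG := conv (fun z _ => pt_sum τ z) hEm
  have hH := conv hEp hF'
  have hH' : ∀ z : ℂ, ‖z‖ < 1 → HasSum (fun n : ℕ => (∑ i ∈ Finset.range (n + 1), bp i * (f (n - i) : ℂ)) * z ^ n)
      ((1 - τ * z) * Em z) := by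
    intro z hz
    have a1 := hH z hz
    have a2 : Ep z * ((1 - τ * z) * R z) = (1 - τ * z) * Em z := by rw [← hRE z hz]; ring
    rwa [a2] at a1
  have hgh := uniq hH' hG
  have hlin : ∀ z : ℂ, ‖1 - τ * z‖ ≤ 1 + τ * ‖z‖ := fun z => by
    refine (norm_sub_le _ _).trans ?_
    rw [norm_one, norm_mul, Complex.norm_real, Real.norm_eq_abs, abs_of_pos (by linarith)]
  have hlog : ∀ z : ℂ, ‖z‖ < 1 → |Real.log ‖R z‖| ≤ Har B' ‖z‖ := by
    intro z hz
    rw [hRlog z hz]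
    refine log_bd hz |>.trans ?_
    unfold Har
    refine mul_le_mul_of_nonneg_right hm (div_nonneg (by positivity) (by linarith))
  have hup1 : ∀ z : ℂ, ‖z‖ < 1 → ‖R z‖ ≤ Real.exp (Har B' ‖z‖) := by
    intro z hz
    have a1 := (abs_le.1 (hlog z hz)).2
    rwa [Real.log_le_iff_le_exp (norm_pos_iff.2 (hRne z hz))] at a1
  have hlo1 : ∀ z : ℂ, ‖z‖ < 1 → Real.exp (-Har B' ‖z‖) ≤ ‖R z‖ := by
    intro z hz
    have a1 := (abs_le.1 (hlog z hz)).1
    rwa [Real.le_log_iff_exp_le (norm_pos_iff.2 (hRne z hz))] at a1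
  refine ⟨f, fun n => (∑ i ∈ Finset.range (n + 1), pt τ i * bm (n - i)).re, fun n => (bp n).re, hf0, ?_, ?_, ?_, ?_,
    ?_, ?_⟩
  · show Real.exp (-B') ≤ (bp 0).re
    rw [hbp, Complex.ofReal_re]
    refine Real.exp_le_exp.2 (neg_le_neg (le_trans ?_ hm))
    refine mul_le_mul_of_nonneg_left ?_ (by positivity)
    refine intervalIntegral.integral_mono_on (by positivity) hup hu.abs fun t _ => ?_
    exact max_le (le_abs_self _) (abs_nonneg _)
  · intro n
    have a1 := congrFun hgh n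
    simp only at a1 ⊢
    rw [← a1, Complex.re_sum]
    refine Finset.sum_congr rfl fun i _ => ?_
    simp
  · have a1 := h2 Ep bp 1 zero_le_one hEp fun z hz => (hEp' z hz).2.1
    rwa [one_pow] at a1
  · refine h2 (fun z => (1 - τ * z) * Em z) _ (1 + τ) (by linarith) hG fun z hz => ?_
    rw [norm_mul]
    refine (mul_le_mul (hlin z) (hEm' z hz).2.1 (norm_nonneg _) (by positivity)).trans ?_
    rw [mul_one]
    nlinarith [norm_nonneg z]
  · intro r hr hr1 n
    have a1 := cauchy (M := (1 + τ) * Real.exp (Har B' r)) hF' hr hr1 (fun z hz => ?_) n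
    · rwa [Complex.norm_intCast] at a1
    · have hz1 : ‖z‖ < 1 := by rw [hz]; exact hr1
      rw [norm_mul]
      have a2 := hup1 z hz1
      rw [hz] at a2
      refine mul_le_mul ((hlin z).trans ?_) a2 (norm_nonneg _) (by linarith)
      rw [hz]
      nlinarith
  · intro z hz
    refine ⟨_, hF' z hz, ?_, ?_⟩
    · rw [norm_mul]
      exact mul_le_mul_of_nonneg_left (hlo1 z hz) (norm_nonneg _)
    · rw [norm_mul]
      exact mul_le_mul_of_nonneg_left (hup1 z hz) (norm_nonneg _)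

/-! ### Roots and reverses (the first lemmas are copied from `Pool/Agent/Helper28/SL/M_DAT.lean`) -/

private theorem one_le_pr (s : Multiset ℂ) : 1 ≤ (s.map (fun a => max 1 ‖a‖)).prod := by
  induction s using Multiset.induction_on with
  | empty => simp
  | cons a s ih =>
    rw [Multiset.map_cons, Multiset.prod_cons]
    exact one_le_mul_of_one_le_of_one_le (le_max_left _ _) ih

private theorem pr_eq_one (s : Multiset ℂ) (h : (s.map (fun a => max 1 ‖a‖)).prod = 1) :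
    ∀ a ∈ s, ‖a‖ ≤ 1 := by
  intro a ha
  obtain ⟨t, rfl⟩ := Multiset.exists_cons_of_mem ha
  rw [Multiset.map_cons, Multiset.prod_cons] at h
  have h1 := one_le_pr t
  have h2 : (1 : ℝ) ≤ max 1 ‖a‖ := le_max_left _ _
  have h3 : max 1 ‖a‖ ≤ 1 :=
    (le_mul_of_one_le_right (zero_le_one.trans h2) h1).trans h.le
  exact (le_max_right _ _).trans h3

private theorem lead_cx (A : ℤ[X]) : (cx A).leadingCoeff = (A.leadingCoeff : ℂ) := by
  unfold cx
  rw [Polynomial.leadingCoeff_map_of_injective (RingHom.injective_int _)]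
  simp

private theorem lead_one (A : ℤ[X]) (h0 : cx A ≠ 0) : 1 ≤ ‖(cx A).leadingCoeff‖ := by
  have h1 : (cx A).leadingCoeff ≠ 0 := leadingCoeff_ne_zero.2 h0
  rw [lead_cx] at h1 ⊢
  have h2 : A.leadingCoeff ≠ 0 := by
    intro h; apply h1; rw [h]; simp
  rw [Complex.norm_intCast]
  have h3 := Int.one_le_abs h2
  exact_mod_cast h3

private theorem lead_pm (A : ℤ[X]) (h : ‖(cx A).leadingCoeff‖ = 1) :
    A.leadingCoeff = 1 ∨ A.leadingCoeff = -1 := by
  rw [lead_cx, Complex.norm_intCast] at h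
  have h3 : |A.leadingCoeff| = 1 := by exact_mod_cast h
  rcases abs_eq (zero_le_one) |>.1 h3 with h4 | h4
  · exact Or.inl h4
  · exact Or.inr h4

private theorem ne_of_mm (A : ℤ[X]) {τ : ℝ} (hτ : 0 < τ) (h : (cx A).mahlerMeasure = τ) : cx A ≠ 0 := by
  intro h0
  rw [h0, Polynomial.mahlerMeasure_zero] at h
  linarith

private theorem rev_prod (s : Multiset ℂ) :
    ((s.map fun a => (X - C a : ℂ[X])).prod).reverse = (s.map fun a => (1 - C a * X : ℂ[X])).prod := by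
  induction s using Multiset.induction_on with
  | empty =>
    have h : (1 : ℂ[X]).reverse = 1 := by
      have := reverse_C (1 : ℂ)
      rwa [C_1] at this
    simpa using h
  | cons a s ih =>
    rw [Multiset.map_cons, Multiset.prod_cons, reverse_mul_of_domain, reverse_X_sub_C', ih, Multiset.map_cons,
      Multiset.prod_cons]

private theorem rev_eq (A : ℤ[X]) : A.reverse.map (Int.castRingHom ℂ) =
    C (cx A).leadingCoeff * ((cx A).roots.map fun a => (1 - C a * X : ℂ[X])).prod := by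
  have hinj : Function.Injective (Int.castRingHom ℂ) := RingHom.injective_int _
  have h1 : A.reverse.map (Int.castRingHom ℂ) = (cx A).reverse := by
    unfold cx
    rw [reverse, reverse, reflect_map, natDegree_map_eq_of_injective hinj]
  have h2 : cx A = C (cx A).leadingCoeff * ((cx A).roots.map (fun a => X - C a)).prod :=
    (IsAlgClosed.splits _).eq_prod_roots
  rw [h1]
  conv_lhs => rw [h2]
  rw [reverse_mul_of_domain, reverse_C, rev_prod]

private theorem rev_norm (A : ℤ[X]) {z : ℂ} (hz : ‖z‖ = 1) :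
    ‖(A.reverse.map (Int.castRingHom ℂ)).eval z‖ = ‖(cx A).eval z‖ := by
  have hz1 : z * (starRingEnd ℂ) z = 1 := by
    rw [Complex.mul_conj, Complex.normSq_eq_norm_sq, hz]; simp
  have hz2 : (starRingEnd ℂ) z * z = 1 := by rw [mul_comm]; exact hz1
  have h1 : eval₂ (Int.castRingHom ℂ) z A.reverse * ((starRingEnd ℂ) z) ^ A.natDegree =
      eval₂ (Int.castRingHom ℂ) ((starRingEnd ℂ) z) A :=
    letI : Invertible ((starRingEnd ℂ) z) := ⟨z, hz1, hz2⟩
    eval₂_reverse_mul_pow (Int.castRingHom ℂ) ((starRingEnd ℂ) z) A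
  have h2 : eval₂ (Int.castRingHom ℂ) ((starRingEnd ℂ) z) A =
      (starRingEnd ℂ) (eval₂ (Int.castRingHom ℂ) z A) := by
    rw [hom_eval₂]
    congr 1
    exact RingHom.ext_int _ _
  rw [h2] at h1
  have h3 := congrArg norm h1
  rw [norm_mul, norm_pow, Complex.norm_conj, hz, one_pow, mul_one, Complex.norm_conj] at h3
  unfold cx
  rw [eval_map, eval_map]
  exact h3

private theorem rv_ne {s : Multiset ℂ} (hs : ∀ a ∈ s, ‖a‖ ≤ 1) {l : ℂ} (hl : l ≠ 0) (z : ℂ)
    (h : (C l * (s.map fun a => (1 - C a * X : ℂ[X])).prod).eval z = 0) : 1 ≤ ‖z‖ := by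
  rw [eval_mul, eval_C, mul_eq_zero] at h
  have h1 := h.resolve_left hl
  rw [eval_multiset_prod, Multiset.prod_eq_zero_iff, Multiset.map_map, Multiset.mem_map] at h1
  obtain ⟨a, ha, ha'⟩ := h1
  simp only [Function.comp_apply, eval_sub, eval_one, eval_mul, eval_C, eval_X] at ha'
  have h2 : a * z = 1 := (sub_eq_zero.1 ha').symm
  have h3 : ‖a‖ * ‖z‖ = 1 := by rw [← norm_mul, h2, norm_one]
  nlinarith [hs a ha, norm_nonneg z]

private theorem rv_zero {s : Multiset ℂ} (hs : ∀ a ∈ s, ‖a‖ ≤ 1) {l : ℂ} (hl : l ≠ 0) :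
    (C l * (s.map fun a => (1 - C a * X : ℂ[X])).prod) ≠ 0 := by
  intro h
  have h1 := rv_ne hs hl 0 (by rw [h, eval_zero])
  rw [norm_zero] at h1
  linarith

/-- the mean of `log |1 - τ z|` is nonnegative -/
private theorem lin_mean {τ : ℝ} (hτ : 1 < τ) :
    IntervalIntegrable (fun t => Real.log ‖1 - τ * circleMap 0 1 t‖) volume 0 (2 * Real.pi) ∧
    0 ≤ (2 * Real.pi)⁻¹ * ∫ t in (0 : ℝ)..2 * Real.pi, Real.log ‖1 - τ * circleMap 0 1 t‖ := by
  have h0 : -(τ : ℂ) ≠ 0 := by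
    rw [neg_ne_zero, Complex.ofReal_ne_zero]; linarith
  have h1 := logMahlerMeasure_C_mul_X_add_C h0 1
  have h2 : ∀ z : ℂ, (C (-(τ : ℂ)) * X + C 1 : ℂ[X]).eval z = 1 - τ * z := fun z => by
    simp only [eval_add, eval_mul, eval_C, eval_X]; ring
  have h3 := (C (-(τ : ℂ)) * X + C 1 : ℂ[X]).intervalIntegrable_mahlerMeasure
  rw [logMahlerMeasure_def, Real.circleAverage_def, smul_eq_mul] at h1
  simp only [h2] at h1 h3
  refine ⟨h3, ?_⟩
  rw [h1]
  have h4 : 0 ≤ Real.log ‖-(τ : ℂ)‖ := by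
    rw [norm_neg, Complex.norm_real, Real.norm_eq_abs, abs_of_pos (by linarith)]
    exact Real.log_nonneg hτ.le
  exact add_nonneg h4 Real.posLog_nonneg

/-- the mean of `|log |R1| - log |Q1||` -/
private theorem mean_le {B τ : ℝ} {A Q : ℤ[X]} (h1τ : 1 < τ) (hmom : momp 1 A Q ≤ B) {R1 Q1 : ℂ[X]}
    (hA : ∀ z : ℂ, ‖z‖ = 1 → ‖(cx A).eval z‖ = ‖1 - τ * z‖ * ‖R1.eval z‖)
    (hQ : ∀ z : ℂ, ‖z‖ = 1 → ‖(cx Q).eval z‖ = ‖Q1.eval z‖) :
    (2 * Real.pi)⁻¹ * ∫ t in (0 : ℝ)..2 * Real.pi, |uu R1 Q1 t| ≤ B + 2 * Real.log (1 + τ) := by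
  obtain ⟨hL, hL0⟩ := lin_mean h1τ
  have hLF : IntervalIntegrable (LF A Q) volume 0 (2 * Real.pi) :=
    (cx A).intervalIntegrable_mahlerMeasure.sub (cx Q).intervalIntegrable_mahlerMeasure
  have hc0 : 0 ≤ Real.log (1 + τ) := Real.log_nonneg (by linarith)
  have hz1 : ∀ t : ℝ, ‖circleMap 0 1 t‖ = 1 := fun t => by rw [norm_circleMap_zero, abs_one]
  have hne : ∀ t : ℝ, 0 < ‖1 - τ * circleMap 0 1 t‖ := by
    intro t
    have h1 : ‖(τ : ℂ) * circleMap 0 1 t‖ = τ := by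
      rw [norm_mul, hz1, Complex.norm_real, Real.norm_eq_abs, abs_of_pos (by linarith), mul_one]
    have h2 := norm_sub_norm_le ((τ : ℂ) * circleMap 0 1 t) 1
    rw [h1, norm_one, norm_sub_rev] at h2
    linarith
  have hle : ∀ t : ℝ, Real.log ‖1 - τ * circleMap 0 1 t‖ ≤ Real.log (1 + τ) := by
    intro t
    refine Real.log_le_log (hne t) ?_
    refine (norm_sub_le _ _).trans ?_
    rw [norm_one, norm_mul, hz1, Complex.norm_real, Real.norm_eq_abs, abs_of_pos (by linarith), mul_one]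
  have hpt : ∀ t : ℝ, |uu R1 Q1 t| ≤ |LF A Q t| + (2 * Real.log (1 + τ) - Real.log ‖1 - τ * circleMap 0 1 t‖) := by
    intro t
    have e1 := hA _ (hz1 t)
    have e2 := hQ _ (hz1 t)
    have e3 := hle t
    rcases eq_or_ne (R1.eval (circleMap 0 1 t)) 0 with h0 | h0
    · have e4 : uu R1 Q1 t = LF A Q t := by
        unfold uu LF
        rw [e1, e2, h0, norm_zero, mul_zero]
      rw [e4]
      linarith
    · have e4 : uu R1 Q1 t = LF A Q t - Real.log ‖1 - τ * circleMap 0 1 t‖ := by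
        unfold uu LF
        rw [e1, e2, Real.log_mul (hne t).ne' (norm_ne_zero_iff.2 h0)]
        ring
      rw [e4]
      refine (abs_sub _ _).trans (add_le_add le_rfl ?_)
      rw [abs_le]
      constructor <;> linarith
  have hint : ∫ t in (0 : ℝ)..2 * Real.pi, |uu R1 Q1 t| ≤
      (∫ t in (0 : ℝ)..2 * Real.pi, |LF A Q t|) + (2 * Real.pi * (2 * Real.log (1 + τ)) -
        ∫ t in (0 : ℝ)..2 * Real.pi, Real.log ‖1 - τ * circleMap 0 1 t‖) := by
    have i1 : IntervalIntegrable (fun _ : ℝ => 2 * Real.log (1 + τ)) volume 0 (2 * Real.pi) := by simp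
    have i2 : ∫ _ in (0 : ℝ)..2 * Real.pi, (2 * Real.log (1 + τ)) = 2 * Real.pi * (2 * Real.log (1 + τ)) := by
      rw [intervalIntegral.integral_const, sub_zero, smul_eq_mul]
    rw [← i2, ← intervalIntegral.integral_sub i1 hL, ← intervalIntegral.integral_add hLF.abs (i1.sub hL)]
    exact intervalIntegral.integral_mono_on (by positivity) (uu_int R1 Q1).abs (hLF.abs.add (i1.sub hL))
      fun t _ => hpt t
  have hm1 : momp 1 A Q = (2 * Real.pi)⁻¹ * ∫ t in (0 : ℝ)..2 * Real.pi, |LF A Q t| := by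
    unfold momp
    rw [Real.circleAverage_def, smul_eq_mul]
    congr 1
    refine intervalIntegral.integral_congr fun t _ => ?_
    simp only [Real.rpow_one]
    rfl
  have hpi : (0 : ℝ) < 2 * Real.pi := by positivity
  calc _ ≤ (2 * Real.pi)⁻¹ * ((∫ t in (0 : ℝ)..2 * Real.pi, |LF A Q t|) + (2 * Real.pi * (2 * Real.log (1 + τ)) -
        ∫ t in (0 : ℝ)..2 * Real.pi, Real.log ‖1 - τ * circleMap 0 1 t‖)) :=
        mul_le_mul_of_nonneg_left hint (by positivity)
    _ = momp 1 A Q + 2 * Real.log (1 + τ) -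
        (2 * Real.pi)⁻¹ * ∫ t in (0 : ℝ)..2 * Real.pi, Real.log ‖1 - τ * circleMap 0 1 t‖ := by
        rw [hm1, mul_add, mul_sub, ← mul_assoc (2 * Real.pi)⁻¹ (2 * Real.pi), inv_mul_cancel₀ hpi.ne', one_mul]
        ring
    _ ≤ _ := by linarith

theorem hLev (_h1 : StMem) (h2 : StToe) (h3 : StHer) (h4 : StSer) : StLev := by
  intro B τ A Q h1τ hA0 hAM hQM hmom
  have hA : cx A ≠ 0 := ne_of_mm A (by linarith) hAM
  have hQ : cx Q ≠ 0 := ne_of_mm Q (by norm_num) hQM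
  -- roots of `Q`
  have hQf := Polynomial.mahlerMeasure_eq_leadingCoeff_mul_prod_roots (cx Q)
  rw [hQM] at hQf
  have hQl := lead_one Q hQ
  have hQp := one_le_pr (cx Q).roots
  have hQl1 : ‖(cx Q).leadingCoeff‖ = 1 := by nlinarith
  have hQp1 : ((cx Q).roots.map (fun a => max 1 ‖a‖)).prod = 1 := by nlinarith
  have hQr := pr_eq_one _ hQp1
  -- roots of `A`
  have hτr : (τ : ℂ) ∈ (cx A).roots := by
    rw [mem_roots hA, IsRoot.def]
    unfold cx
    have h5 : aeval ((algebraMap ℝ ℂ) τ) A = 0 := by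
      rw [aeval_algebraMap_apply, hA0, map_zero]
    rw [eval_map]
    exact h5
  obtain ⟨t, ht⟩ := Multiset.exists_cons_of_mem hτr
  have hAf := Polynomial.mahlerMeasure_eq_leadingCoeff_mul_prod_roots (cx A)
  have hmx : max 1 ‖(τ : ℂ)‖ = τ := by
    rw [Complex.norm_real, Real.norm_eq_abs, abs_of_pos (by linarith)]
    exact max_eq_right h1τ.le
  rw [hAM, ht, Multiset.map_cons, Multiset.prod_cons, hmx] at hAf
  have hAl := lead_one A hA
  have hAp := one_le_pr t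
  have hprod : ‖(cx A).leadingCoeff‖ * (t.map (fun a => max 1 ‖a‖)).prod = 1 := by
    have h6 : τ * (‖(cx A).leadingCoeff‖ * (t.map (fun a => max 1 ‖a‖)).prod) = τ * 1 := by
      rw [mul_one]; nlinarith
    exact mul_left_cancel₀ (by linarith) h6
  have hAl1 : ‖(cx A).leadingCoeff‖ = 1 := by nlinarith
  have hAp1 : (t.map (fun a => max 1 ‖a‖)).prod = 1 := by nlinarith
  have hAr := pr_eq_one _ hAp1
  have hQroots : ∀ z : ℂ, aeval z Q = 0 → ‖z‖ ≤ 1 := by
    intro z hz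
    refine hQr z ?_
    rw [mem_roots hQ, IsRoot.def]
    unfold cx
    rw [eval_map]
    exact hz
  obtain ⟨ε, f, hε, hf0, hF⟩ := h4 A Q (lead_pm A hAl1) (lead_pm Q hQl1) hQroots
  have hlA : (cx A).leadingCoeff ≠ 0 := leadingCoeff_ne_zero.2 hA
  have hlQ : (cx Q).leadingCoeff ≠ 0 := leadingCoeff_ne_zero.2 hQ
  have hevA : ∀ z : ℂ, (A.reverse.map (Int.castRingHom ℂ)).eval z = (1 - τ * z) *
      (C (cx A).leadingCoeff * (t.map fun a => (1 - C a * X : ℂ[X])).prod).eval z := by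
    intro z
    rw [rev_eq, ht, Multiset.map_cons, Multiset.prod_cons]
    simp only [eval_mul, eval_C, eval_sub, eval_one, eval_X]
    ring
  have hevA' : ∀ z : ℂ, aeval z A.reverse = (1 - τ * z) *
      (C (cx A).leadingCoeff * (t.map fun a => (1 - C a * X : ℂ[X])).prod).eval z := by
    intro z
    rw [← hevA, eval_map]
    rfl
  have hevQ' : ∀ z : ℂ, aeval z Q.reverse =
      (C (cx Q).leadingCoeff * ((cx Q).roots.map fun a => (1 - C a * X : ℂ[X])).prod).eval z := by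
    intro z
    rw [← rev_eq, eval_map]
    rfl
  refine core (R1 := C (cx A).leadingCoeff * (t.map fun a => (1 - C a * X : ℂ[X])).prod)
    (Q1 := C (cx Q).leadingCoeff * ((cx Q).roots.map fun a => (1 - C a * X : ℂ[X])).prod) (ε := (ε : ℂ))
    h2 h3 h1τ ?_ hf0 (rv_zero hAr hlA) (rv_zero hQr hlQ) (rv_ne hAr hlA) (rv_ne hQr hlQ) ?_ ?_
  · rcases hε with h | h <;> rw [h] <;> simp
  · intro z hz
    have h5 := hF z hz
    rw [hevA', hevQ'] at h5
    exact h5
  · refine mean_le h1τ hmom ?_ ?_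
    · intro z hz
      rw [← rev_norm A hz, hevA, norm_mul]
    · intro z hz
      rw [← rev_norm Q hz, rev_eq]

end Pool.Agent.Helper63.SLM

end
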